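import Pool.Agent.N295.SR.Stm3

set_option autoImplicit false

/-!
# Spheres of revolution: boxes in Mercator coordinates and geodesic discs

The parts NP, BIN and DIN of project SR (statements by helper295).
-/

namespace Pool.Agent.N861.SR

open MeasureTheory Set Real Filter Topology
open Pool.Agent.N295.SR

lemma norm_sq3 (p : E3) : ‖p‖ ^ 2 = p 0 ^ 2 + p 1 ^ 2 + p 2 ^ 2 := by
  rw [EuclideanSpace.norm_sq_eq, Fin.sum_univ_three]
  simp only [Real.norm_eq_abs, sq_abs]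

lemma merc_0 (t θ : ℝ) : merc t θ 0 = cos θ / cosh t := rfl
lemma merc_1 (t θ : ℝ) : merc t θ 1 = sin θ / cosh t := rfl
lemma merc_2 (t θ : ℝ) : merc t θ 2 = tanh t := rfl
lemma np_0 : np 0 = 0 := rfl
lemma np_1 : np 1 = 0 := rfl
lemma np_2 : np 2 = 1 := rfl
lemma refl_0 (p : E3) : refl p 0 = p 0 := rfl
lemma refl_1 (p : E3) : refl p 1 = p 1 := rfl
lemma refl_2 (p : E3) : refl p 2 = - p 2 := rfl

lemma ext3 {p q : E3} (h0 : p 0 = q 0) (h1 : p 1 = q 1) (h2 : p 2 = q 2) : p = q := by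
  ext i
  fin_cases i
  · exact h0
  · exact h1
  · exact h2

lemma norm_np : ‖np‖ = 1 := by
  have h : ‖np‖ ^ 2 = 1 := by rw [norm_sq3, np_0, np_1, np_2]; norm_num
  have h0 := norm_nonneg np
  nlinarith

lemma norm_refl (p : E3) : ‖refl p‖ = ‖p‖ := by
  have h : ‖refl p‖ ^ 2 = ‖p‖ ^ 2 := by
    rw [norm_sq3, norm_sq3, refl_0, refl_1, refl_2]; ring
  exact (pow_left_inj₀ (norm_nonneg _) (norm_nonneg _) two_ne_zero).1 h

lemma refl_sub (p q : E3) : refl (p - q) = refl p - refl q := by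
  refine ext3 ?_ ?_ ?_
  · simp [refl_0]
  · simp [refl_1]
  · simp only [refl_2, PiLp.sub_apply]; ring

lemma refl_merc (t θ : ℝ) : refl (merc t θ) = merc (-t) θ := by
  refine ext3 ?_ ?_ ?_
  · rw [refl_0, merc_0, merc_0, cosh_neg]
  · rw [refl_1, merc_1, merc_1, cosh_neg]
  · rw [refl_2, merc_2, merc_2, tanh_neg]

lemma merc_np (t θ : ℝ) : ‖merc t θ - np‖ ^ 2 = 4 / (Real.exp (2 * t) + 1) := by
  rw [norm_sq3]
  simp only [PiLp.sub_apply, merc_0, merc_1, merc_2, np_0, np_1, np_2, sub_zero]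
  have hc : 0 < cosh t := cosh_pos t
  have h1 : (cos θ / cosh t) ^ 2 + (sin θ / cosh t) ^ 2 + (tanh t - 1) ^ 2 = 2 - 2 * tanh t := by
    have h2 : (cos θ / cosh t) ^ 2 + (sin θ / cosh t) ^ 2 = 1 / cosh t ^ 2 := by
      rw [div_pow, div_pow, ← add_div, add_comm, sin_sq_add_cos_sq]
    rw [h2, tanh_eq_sinh_div_cosh]
    have h3 := cosh_sq t
    field_simp
    nlinarith
  rw [h1, tanh_eq_sinh_div_cosh]
  have h4 : cosh t - sinh t = Real.exp (-t) := cosh_sub_sinh t
  have h5 : cosh t = (Real.exp t + Real.exp (-t)) / 2 := cosh_eq t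
  have h6 : (2 : ℝ) - 2 * (sinh t / cosh t) = 2 * (cosh t - sinh t) / cosh t := by
    field_simp
  rw [h6, h4, h5]
  have h7 : Real.exp (2 * t) = Real.exp t * Real.exp t := by rw [← Real.exp_add]; ring_nf
  have h8 : Real.exp t * Real.exp (-t) = 1 := by rw [← Real.exp_add]; simp
  have h9 : 0 < Real.exp t := Real.exp_pos t
  have h10 : 0 < Real.exp (-t) := Real.exp_pos _
  rw [h7]
  rw [div_eq_div_iff (by positivity) (by positivity)]
  have h11 : Real.exp (-t) * (Real.exp t * Real.exp t) = Real.exp t := by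
    rw [← mul_assoc, mul_comm (Real.exp (-t)), h8, one_mul]
  linear_combination 2 * h11

lemma merc_per (t θ : ℝ) : merc t (θ + 2 * π) = merc t θ := by
  refine ext3 ?_ ?_ ?_
  · rw [merc_0, merc_0, cos_add_two_pi]
  · rw [merc_1, merc_1, sin_add_two_pi]
  · rfl

lemma merc_per_int (t θ : ℝ) (k : ℤ) : merc t (θ + k * (2 * π)) = merc t θ := by
  refine ext3 ?_ ?_ ?_
  · rw [merc_0, merc_0, cos_add_int_mul_two_pi]
  · rw [merc_1, merc_1, sin_add_int_mul_two_pi]
  · rfl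

lemma merc_tendsto (θ : ℝ) : Tendsto (fun t => merc t θ) atTop (𝓝 np) := by
  rw [tendsto_iff_norm_sub_tendsto_zero]
  have h1 : Tendsto (fun t : ℝ => Real.exp (2 * t) + 1) atTop atTop := by
    refine tendsto_atTop_add_const_right _ _ ?_
    exact Real.tendsto_exp_atTop.comp (tendsto_id.const_mul_atTop (by norm_num))
  have h2 : Tendsto (fun t : ℝ => 4 / (Real.exp (2 * t) + 1)) atTop (𝓝 0) :=
    h1.const_div_atTop 4
  have h3 : Tendsto (fun t : ℝ => √(4 / (Real.exp (2 * t) + 1))) atTop (𝓝 0) := by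
    have := (Real.continuous_sqrt.tendsto 0).comp h2
    rwa [Real.sqrt_zero] at this
  refine h3.congr fun t => ?_
  rw [← merc_np t θ, Real.sqrt_sq (norm_nonneg _)]

lemma cont_refl : Continuous refl := by
  unfold Pool.Agent.N295.SR.refl
  refine (PiLp.continuous_toLp 2 _).comp ?_
  refine continuous_pi fun i => ?_
  fin_cases i
  · simp only [Fin.zero_eta, Matrix.cons_val_zero]; fun_prop
  · simp only [Fin.mk_one, Matrix.cons_val_one]; fun_prop
  · simp only [Fin.reduceFinMk, Matrix.cons_val]; fun_prop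

theorem NP : S_COORD → S_NP := by
  intro hC
  refine ⟨merc_np, merc_per, ?_, merc_tendsto, refl_merc, ?_, norm_refl, norm_np, cont_refl⟩
  · intro p hp
    by_cases h : |p 2| < 1
    · obtain ⟨t, θ, h1, h2, h3⟩ := hC.2 p hp h
      exact Or.inr (Or.inr ⟨t, θ, h1, h2, h3⟩)
    · have h1 : p 0 ^ 2 + p 1 ^ 2 + p 2 ^ 2 = 1 := by rw [← norm_sq3, hp]; norm_num
      have h2 : 1 ≤ p 2 ^ 2 := by
        rw [← sq_abs]
        have := not_lt.1 h
        nlinarith [abs_nonneg (p 2)]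
      have h3 : p 0 = 0 := by nlinarith [sq_nonneg (p 0), sq_nonneg (p 1)]
      have h4 : p 1 = 0 := by nlinarith [sq_nonneg (p 0), sq_nonneg (p 1)]
      have h5 : (p 2 - 1) * (p 2 + 1) = 0 := by
        rw [h3, h4] at h1
        linarith
      rcases mul_eq_zero.1 h5 with h6 | h6
      · left
        exact ext3 (by rw [h3, np_0]) (by rw [h4, np_1]) (by rw [np_2]; linarith)
      · right; left
        exact ext3 (by rw [h3, refl_0, np_0]) (by rw [h4, refl_1, np_1])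
          (by rw [refl_2, np_2]; linarith)
  · intro p
    refine ext3 ?_ ?_ ?_
    · rw [refl_0, refl_0]
    · rw [refl_1, refl_1]
    · rw [refl_2, refl_2, neg_neg]

lemma cosh_comp (t t' : ℝ) : cosh t' ≤ cosh t * Real.exp |t' - t| := by
  rw [cosh_eq, cosh_eq, div_mul_eq_mul_div, add_mul, ← Real.exp_add, ← Real.exp_add]
  have h1 : Real.exp t' ≤ Real.exp (t + |t' - t|) :=
    Real.exp_le_exp.2 (by linarith [le_abs_self (t' - t)])
  have h2 : Real.exp (-t') ≤ Real.exp (-t + |t' - t|) :=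
    Real.exp_le_exp.2 (by linarith [neg_abs_le (t' - t)])
  linarith

lemma cosh_sub_one_le {x : ℝ} (hx : |x| ≤ 1) : cosh x ≤ 1 + 0.553 * x ^ 2 := by
  have h1 := (abs_le.1 (Real.exp_bound hx (n := 4) (by norm_num))).2
  have h2 := (abs_le.1 (Real.exp_bound (x := -x) (by rwa [abs_neg]) (n := 4) (by norm_num))).2
  simp only [Finset.sum_range_succ, Finset.sum_range_zero, Nat.factorial, abs_neg] at h1 h2
  have h3 : |x| ^ 4 = x ^ 4 := by
    have : |x| ^ 4 = (|x| ^ 2) ^ 2 := by ring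
    rw [this, sq_abs]; ring
  rw [h3] at h1 h2
  norm_num at h1 h2
  have h4 : x ^ 4 ≤ x ^ 2 := by
    have : x ^ 2 ≤ 1 := by rw [← sq_abs]; nlinarith [abs_nonneg x]
    nlinarith [sq_nonneg x]
  rw [cosh_eq]
  nlinarith

theorem BIN : S_CHORD → S_DUP → S_COORD → S_BIN := by
  intro hCh hDup hCo ρ ρm ρM hM t θ t' θ' δ r hδ hδ1 ht hθ hr
  refine ⟨(hCo.1 t' θ').1, ?_⟩
  have hpos : ∀ z, 0 < ρ z := fun z => hM.pos.trans_le (hM.lo z)
  have h1 := hDup ρ ρM hM.c hpos hM.hi (merc t θ) (merc t' θ') (hCo.1 t θ).1 (hCo.1 t' θ').1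
  have hc : 0 < cosh t := cosh_pos t
  have hc' : 0 < cosh t' := cosh_pos t'
  have h2 : ‖merc t θ - merc t' θ'‖ ^ 2 ≤ (2.4 * δ / cosh t) ^ 2 := by
    rw [hCh, div_le_iff₀ (by positivity)]
    have h3 : cosh (t - t') ≤ 1 + 0.553 * δ ^ 2 := by
      have h4 : |t - t'| ≤ δ := by rw [abs_sub_comm]; exact ht
      have h5 := cosh_sub_one_le (h4.trans hδ1)
      have h6 : (t - t') ^ 2 ≤ δ ^ 2 := by
        rw [← sq_abs]; exact pow_le_pow_left₀ (abs_nonneg _) h4 2
      linarith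
    have h4 : 1 - δ ^ 2 / 2 ≤ cos (θ - θ') := by
      have h5 := Real.one_sub_sq_div_two_le_cos (x := θ - θ')
      have h6 : (θ - θ') ^ 2 ≤ δ ^ 2 := by
        rw [← sq_abs, abs_sub_comm]; exact pow_le_pow_left₀ (abs_nonneg _) hθ 2
      linarith
    have h5 : cosh t ≤ cosh t' * 2.72 := by
      have h6 := cosh_comp t' t
      have h7 : Real.exp |t - t'| ≤ 2.72 := by
        have h8 : |t - t'| ≤ 1 := by rw [abs_sub_comm]; exact ht.trans hδ1
        have h9 : Real.exp |t - t'| ≤ Real.exp 1 := Real.exp_le_exp.2 h8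
        have := Real.exp_one_lt_d9
        linarith
      calc cosh t ≤ cosh t' * Real.exp |t - t'| := h6
        _ ≤ cosh t' * 2.72 := by gcongr
    have h6 : (2.4 * δ / cosh t) ^ 2 * (cosh t * cosh t') = 5.76 * δ ^ 2 * (cosh t' / cosh t) := by
      field_simp
      ring
    have h7 : 1 / 2.72 ≤ cosh t' / cosh t := by
      rw [div_le_div_iff₀ (by norm_num) hc]
      linarith
    rw [h6]
    nlinarith [mul_le_mul_of_nonneg_left h7 (sq_nonneg δ), sq_nonneg δ]
  have h3 : ‖merc t θ - merc t' θ'‖ ≤ 2.4 * δ / cosh t :=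
    (pow_le_pow_iff_left₀ (norm_nonneg _) (by positivity) two_ne_zero).1 h2
  have h4 : π ≤ 3.2 := by have := Real.pi_lt_d2; linarith
  have h5 : 4 * δ * √ρM / cosh t < r := by
    rw [div_lt_iff₀ hc]; exact hr
  refine lt_of_le_of_lt ?_ h5
  calc gdist ρ (merc t θ) (merc t' θ') ≤ π / 2 * √ρM * ‖merc t θ - merc t' θ'‖ := h1
    _ ≤ 1.6 * √ρM * (2.4 * δ / cosh t) := by
        have : π / 2 ≤ 1.6 := by linarith
        gcongr
    _ = 3.84 * (δ * √ρM / cosh t) := by ring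
    _ ≤ 4 * (δ * √ρM / cosh t) := by
        have : 0 ≤ δ * √ρM / cosh t := by positivity
        linarith
    _ = 4 * δ * √ρM / cosh t := by ring

lemma near_np (t θ : ℝ) : 1 ≤ (‖merc t θ - np‖ * cosh t) ^ 2 := by
  rw [mul_pow, merc_np, cosh_eq]
  have h7 : Real.exp (2 * t) = Real.exp t * Real.exp t := by rw [← Real.exp_add]; ring_nf
  have h8 : Real.exp t * Real.exp (-t) = 1 := by rw [← Real.exp_add]; simp
  have h9 : 0 < Real.exp t := Real.exp_pos t
  have h10 : 0 < Real.exp (-t) := Real.exp_pos _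
  rw [h7, div_mul_eq_mul_div, le_div_iff₀ (by positivity)]
  nlinarith

theorem DIN : S_CHORD → S_COORD → S_DLOW → S_NP → S_DIN := by
  intro hCh hCo hDl hNP ρ ρm ρM hM t θ r hr q hq
  obtain ⟨hq1, hq2⟩ := hq
  have h1 := hDl ρ ρm hM.c hM.pos hM.lo (merc t θ) q (hCo.1 t θ).1 hq1
  have hc : 0 < cosh t := cosh_pos t
  have hm : 0 < √ρm := Real.sqrt_pos.2 hM.pos
  set s := ‖merc t θ - q‖ * cosh t with hs
  have hs0 : 0 ≤ s := by positivity
  have hs1 : √ρm * s < r * cosh t := by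
    calc √ρm * s = (√ρm * ‖merc t θ - q‖) * cosh t := by rw [hs]; ring
      _ < r * cosh t := by
          have := h1.trans_lt hq2
          gcongr
  have hs2 : s < 1 / 2 := by
    have h2 : √ρm * s < √ρm * (1 / 2) := by linarith
    exact lt_of_mul_lt_mul_left h2 hm.le
  have hex : ∃ t' θ' : ℝ, q = merc t' θ' := by
    rcases hNP.2.2.1 q hq1 with h | h | ⟨t', θ', _, _, h⟩
    · exfalso
      have h2 := near_np t θ
      rw [← h, ← hs] at h2
      nlinarith
    · exfalso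
      have h3 : ‖merc t θ - q‖ = ‖merc (-t) θ - np‖ := by
        rw [← norm_refl (merc t θ - q), refl_sub, refl_merc, h]
        congr 2
        exact hNP.2.2.2.2.2.1 np
      have h2 := near_np (-t) θ
      rw [← h3, cosh_neg, ← hs] at h2
      nlinarith
    · exact ⟨t', θ', h⟩
  obtain ⟨t', θ₁, hq3⟩ := hex
  -- choice of the angle
  obtain ⟨θ', hθ', hθd⟩ : ∃ θ' : ℝ, q = merc t' θ' ∧ |θ' - θ| ≤ π := by
    refine ⟨θ₁ + (-round ((θ₁ - θ) / (2 * π)) : ℤ) * (2 * π), by rw [merc_per_int]; exact hq3, ?_⟩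
    have h2 := abs_sub_round ((θ₁ - θ) / (2 * π))
    have h3 : θ₁ + (-round ((θ₁ - θ) / (2 * π)) : ℤ) * (2 * π) - θ =
        ((θ₁ - θ) / (2 * π) - round ((θ₁ - θ) / (2 * π))) * (2 * π) := by
      push_cast
      have := Real.pi_pos
      field_simp
      ring
    rw [h3, abs_mul, abs_of_pos (by have := Real.pi_pos; positivity : (0 : ℝ) < 2 * π)]
    have := Real.pi_pos
    nlinarith
  refine ⟨t', θ', hθ', ?_⟩
  have hch : 4 * sinh ((t' - t) / 2) ^ 2 + 4 * sin ((θ' - θ) / 2) ^ 2 =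
      ‖merc t θ - q‖ ^ 2 * (cosh t * cosh t') := by
    have hc' : 0 < cosh t' := cosh_pos t'
    rw [hθ', hCh, div_mul_cancel₀ _ (by positivity)]
    have h2 : cosh (t - t') = 1 + 2 * sinh ((t' - t) / 2) ^ 2 := by
      have h3 : cosh (t - t') = cosh (2 * ((t' - t) / 2)) := by
        rw [← cosh_neg (t - t')]; congr 1; ring
      rw [h3, cosh_two_mul, cosh_sq]
      ring
    have h3 : cos (θ - θ') = 1 - 2 * sin ((θ' - θ) / 2) ^ 2 := by
      have h4 : cos (θ - θ') = cos (2 * ((θ' - θ) / 2)) := by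
        rw [← cos_neg (θ - θ')]; congr 1; ring
      rw [h4, cos_two_mul', cos_sq']
      ring
    rw [h2, h3]
    ring
  set E := Real.exp |t' - t| with hE
  have hE0 : 0 < E := Real.exp_pos _
  have hle : 4 * sinh ((t' - t) / 2) ^ 2 + 4 * sin ((θ' - θ) / 2) ^ 2 ≤ s ^ 2 * E := by
    rw [hch]
    calc ‖merc t θ - q‖ ^ 2 * (cosh t * cosh t')
        ≤ ‖merc t θ - q‖ ^ 2 * (cosh t * (cosh t * E)) := by
          have := cosh_comp t t'
          gcongr
      _ = s ^ 2 * E := by rw [hs]; ring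
  have hsh : 4 * sinh ((t' - t) / 2) ^ 2 * E = (E - 1) ^ 2 := by
    have h2 : sinh ((t' - t) / 2) ^ 2 = sinh (|t' - t| / 2) ^ 2 := by
      rcases abs_cases (t' - t) with ⟨h, _⟩ | ⟨h, _⟩
      · rw [h]
      · rw [h, neg_div, sinh_neg, neg_sq]
    rw [h2, sinh_eq]
    set F := Real.exp (|t' - t| / 2) with hF
    have h3 : E = F * F := by rw [hE, hF, ← Real.exp_add]; congr 1; ring
    have h4 : F * Real.exp (-(|t' - t| / 2)) = 1 := by rw [hF, ← Real.exp_add]; simp
    set G := Real.exp (-(|t' - t| / 2))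
    rw [h3]
    have h5 : 4 * ((F - G) / 2) ^ 2 * (F * F) = (F * F - F * G) ^ 2 := by ring
    rw [h5, h4]
  have hE1 : 1 ≤ E := Real.one_le_exp (abs_nonneg _)
  have hE2 : E - 1 ≤ s * E := by
    have h2 : (E - 1) ^ 2 ≤ (s * E) ^ 2 := by
      rw [← hsh]
      have h3 : 0 ≤ 4 * sin ((θ' - θ) / 2) ^ 2 := by positivity
      calc 4 * sinh ((t' - t) / 2) ^ 2 * E ≤ (s ^ 2 * E) * E := by
            have : 4 * sinh ((t' - t) / 2) ^ 2 ≤ s ^ 2 * E := by linarith
            gcongr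
        _ = _ := by ring
    exact (pow_le_pow_iff_left₀ (by linarith) (by positivity) two_ne_zero).1 h2
  have hE3 : E ≤ 2 := by nlinarith
  have hdt : |t' - t| ≤ 2 * s := by
    have h2 : |t' - t| + 1 ≤ E := Real.add_one_le_exp _
    nlinarith
  have hdθ : |θ' - θ| ≤ 3 * s := by
    have h2 : 4 * sin ((θ' - θ) / 2) ^ 2 ≤ 2 * s ^ 2 := by
      have h3 : 0 ≤ 4 * sinh ((t' - t) / 2) ^ 2 := by positivity
      nlinarith [sq_nonneg s]
    have h3 : 2 / π * |(θ' - θ) / 2| ≤ |sin ((θ' - θ) / 2)| := by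
      refine Real.mul_abs_le_abs_sin ?_
      rw [abs_div, abs_of_pos (by norm_num : (0 : ℝ) < 2)]
      linarith
    have h4 : |θ' - θ| ≤ π * |sin ((θ' - θ) / 2)| := by
      rw [abs_div, abs_of_pos (by norm_num : (0 : ℝ) < 2)] at h3
      have := Real.pi_pos
      have h5 : 2 / π * (|θ' - θ| / 2) = |θ' - θ| / π := by field_simp
      rw [h5, div_le_iff₀ this] at h3
      linarith
    have h5 : |θ' - θ| ^ 2 ≤ (3 * s) ^ 2 := by
      calc |θ' - θ| ^ 2 ≤ (π * |sin ((θ' - θ) / 2)|) ^ 2 := by gcongr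
        _ = π ^ 2 * sin ((θ' - θ) / 2) ^ 2 := by rw [mul_pow, sq_abs]
        _ ≤ 16 * (s ^ 2 / 2) := by
            have h6 : π ^ 2 ≤ 16 := by
              have := Real.pi_lt_four
              have := Real.pi_pos
              nlinarith
            have h7 : sin ((θ' - θ) / 2) ^ 2 ≤ s ^ 2 / 2 := by linarith
            gcongr
        _ ≤ (3 * s) ^ 2 := by nlinarith [sq_nonneg s]
    exact (pow_le_pow_iff_left₀ (abs_nonneg _) (by positivity) two_ne_zero).1 h5
  constructor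
  · calc |t' - t| * √ρm ≤ 2 * s * √ρm := by gcongr
      _ = 2 * (√ρm * s) := by ring
      _ ≤ 2 * (r * cosh t) := by linarith
  · calc |θ' - θ| * √ρm ≤ 3 * s * √ρm := by gcongr
      _ = 3 * (√ρm * s) := by ring
      _ ≤ 3 * (r * cosh t) := by linarith

end Pool.Agent.N861.SR
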